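import Pool.Agent.TH818.AR.Spec

/-!
# At almost all rational points of a one-parameter family every period relation of bounded degree and polynomial
# height comes from the family
-/

set_option autoImplicit false

open Polynomial

namespace Pool.Agent.Results.MP_290158_ag.RelationsAtRationalPoints

/-- `P_1, …, P_N` are complex-valued functions on the real interval `[a, b]` (the entries of a period matrix). The rational
numbers `q` in `[a, b]` with denominator at most `T` for which there is a polynomial `F` in `N` variables of total degree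
at most `δ`, with integer coefficients of absolute value at most `T ^ A`, such that `F(P(q)) = 0` and `F` is not the
specialisation at `t = q` of a polynomial `G(t, X)` over `ℚ[t]`, of total degree at most `δ` in `X`, with
`G(t, P(t)) = 0` for all `t` in `[a, b]`. -/
def Exceptional (N δ : ℕ) (P : Fin N → ℝ → ℂ) (a b A T : ℝ) : Set ℚ :=
  {q | a ≤ q ∧ q ≤ b ∧ (q.den : ℝ) ≤ T ∧ ∃ F : MvPolynomial (Fin N) ℤ, F.totalDegree ≤ δ ∧
    (∀ s, |((F.coeff s : ℤ) : ℝ)| ≤ T ^ A) ∧ MvPolynomial.aeval (fun i => P i q) F = 0 ∧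
    ¬ ∃ G : MvPolynomial (Fin N) ℚ[X], G.totalDegree ≤ δ ∧
      (∀ t : ℝ, a ≤ t → t ≤ b →
        MvPolynomial.eval₂ (aeval (t : ℂ) : ℚ[X] →ₐ[ℚ] ℂ).toRingHom (fun i => P i t) G = 0) ∧
      MvPolynomial.map (evalRingHom q) G = MvPolynomial.map (Int.castRingHom ℚ) F}

/-- For functions `P_i` which are analytic at each point of `[a, b]`, for all `A` and all
`β > 2 - 2 / (binom(N + δ, δ) + 1)` there is `C` such that for all `T ≥ 1` at most `C T^β` rationals are exceptional. -/
theorem result (N δ : ℕ) (P : Fin N → ℝ → ℂ) (a b : ℝ) (hab : a < b)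
    (hP : ∀ i, AnalyticOnNhd ℝ (P i) (Set.Icc a b)) (A β : ℝ)
    (hβ : 2 - 2 / (((N + δ).choose δ : ℝ) + 1) < β) :
    ∃ C : ℝ, ∀ T : ℝ, 1 ≤ T → (Exceptional N δ P a b A T).Finite ∧
      ((Exceptional N δ P a b A T).ncard : ℝ) ≤ C * T ^ β := by
  classical
  set J := Finset.finsuppAntidiag (Finset.univ : Finset (Option (Fin N))) δ with hJ
  set m := (N + δ).choose δ with hm
  have hcard : J.card = m := by
    rw [hJ, Finset.card_finsuppAntidiag_nat_eq_choose, Finset.card_univ, Fintype.card_option, Fintype.card_fin, hm]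
    congr 1
    omega
  let eqv : Fin m ≃ J := (J.equivFinOfCardEq hcard).symm
  let u : Fin m → (Fin N →₀ ℕ) := fun l => (eqv l : Option (Fin N) →₀ ℕ).some
  have hJmem : ∀ f : Option (Fin N) →₀ ℕ, f ∈ J ↔ f none + ∑ i, f (some i) = δ := by
    intro f
    rw [hJ, Finset.mem_finsuppAntidiag]
    simp [Fintype.sum_option]
  have hudeg : ∀ l, ∑ i, u l i ≤ δ := by
    intro l
    have := (hJmem _).1 (eqv l).2
    simp only [u, Finsupp.some_apply]
    omega
  have huinj : Function.Injective u := by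
    intro l l' h
    apply eqv.injective
    apply Subtype.ext
    have h1 := (hJmem _).1 (eqv l).2
    have h2 := (hJmem _).1 (eqv l').2
    have h3 : ∀ i, (eqv l : Option (Fin N) →₀ ℕ) (some i) = (eqv l' : Option (Fin N) →₀ ℕ) (some i) := by
      intro i
      exact DFunLike.congr_fun h i
    ext x
    cases x with
    | none =>
      simp only [h3] at h1
      omega
    | some i => exact h3 i
  have husurj : ∀ s : Fin N →₀ ℕ, ∑ i, s i ≤ δ → ∃ l, u l = s := by
    intro s hs
    let f : Option (Fin N) →₀ ℕ := Finsupp.equivFunOnFinite.symm fun x => x.elim (δ - ∑ i, s i) s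
    have hf : f ∈ J := by
      rw [hJmem]
      simp only [f, Finsupp.equivFunOnFinite_symm_apply_apply, Option.elim]
      omega
    refine ⟨eqv.symm ⟨f, hf⟩, ?_⟩
    ext i
    simp [u, f]
  have hdeg_le : ∀ {R : Type} [CommSemiring R] (F : MvPolynomial (Fin N) R), F.totalDegree ≤ δ →
      ∀ s ∈ F.support, ∑ i, s i ≤ δ := by
    intro R _ F hF s hs
    have h1 := MvPolynomial.le_totalDegree hs
    rw [Finsupp.sum_fintype _ _ (fun _ => rfl)] at h1
    exact h1.trans hF
  -- the functions
  let v : Fin m → ℝ → ℂ := fun l t => ∏ i, P i t ^ (u l i)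
  have hv : ∀ l, AnalyticOnNhd ℝ (v l) (Set.Icc a b) := fun l t ht =>
    Finset.analyticAt_fun_prod _ fun i _ => (hP i t ht).pow _
  have hβ' : 2 * (m : ℝ) / (m + 1) < β := by
    refine lt_of_le_of_lt (le_of_eq ?_) hβ
    have : (0 : ℝ) ≤ m := by positivity
    field_simp
    ring
  obtain ⟨C, -, hC⟩ := TH818.AR.spec m v a b A β hab hv hβ'
  refine ⟨C, fun T hT => ?_⟩
  have hfinT : {q : ℚ | (q : ℝ) ∈ Set.Icc a b ∧ (q.den : ℝ) ≤ T}.Finite := TH818.AR.finite_rat a b T
  refine ⟨hfinT.subset fun q hq => ⟨⟨hq.1, hq.2.1⟩, hq.2.2.1⟩, le_trans ?_ (hC T hT)⟩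
  have hsub : Exceptional N δ P a b A T ⊆ {q : ℚ | (q : ℝ) ∈ Set.Icc a b ∧ (q.den : ℝ) ≤ T ∧
      ∃ c : Fin m → ℤ, (∀ l, |(c l : ℝ)| ≤ T ^ A) ∧
      ∑ l, (c l : ℂ) * v l q = 0 ∧ ¬ TH818.AR.Functional v a b q c} := by
    rintro q ⟨hq1, hq2, hq3, F, hFδ, hFc, hF0, hFG⟩
    refine ⟨⟨hq1, hq2⟩, hq3, fun l => F.coeff (u l), fun l => hFc _, ?_, ?_⟩
    · rw [MvPolynomial.aeval_def, MvPolynomial.eval₂_eq'] at hF0
      rw [← hF0, ← Finset.sum_image (f := fun s : Fin N →₀ ℕ => ((F.coeff s : ℤ) : ℂ) * ∏ i, P i q ^ (s i))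
        (fun x _ y _ hxy => huinj hxy)]
      refine (Finset.sum_subset_zero_on_sdiff ?_ ?_ ?_).symm
      · intro s hs
        obtain ⟨l, hl⟩ := husurj s (hdeg_le F hFδ s hs)
        exact Finset.mem_image.2 ⟨l, Finset.mem_univ _, hl⟩
      · intro s hs
        rw [Finset.mem_sdiff, MvPolynomial.notMem_support_iff] at hs
        rw [hs.2]
        simp
      · intro s _
        simp
    · rintro ⟨p, hp1, hp2⟩
      apply hFG
      refine ⟨∑ l, MvPolynomial.monomial (u l) (p l), ?_, ?_, ?_⟩
      · refine MvPolynomial.totalDegree_finsetSum_le fun l _ => ?_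
        refine (MvPolynomial.totalDegree_monomial_le _ _).trans ?_
        rw [Finsupp.sum_fintype _ _ (fun _ => rfl)]
        exact hudeg l
      · intro t ht1 ht2
        rw [MvPolynomial.eval₂_sum, ← hp1 t ⟨ht1, ht2⟩]
        refine Finset.sum_congr rfl fun l _ => ?_
        rw [MvPolynomial.eval₂_monomial, Finsupp.prod_fintype _ _ (fun _ => pow_zero _)]
        congr 1
        have := Polynomial.aeval_algebraMap_apply ℂ t (p l)
        simpa using this
      · rw [map_sum]
        ext s
        rw [MvPolynomial.coeff_sum]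
        simp only [MvPolynomial.map_monomial, MvPolynomial.coeff_monomial, MvPolynomial.coeff_map]
        by_cases hs : ∑ i, s i ≤ δ
        · obtain ⟨l, rfl⟩ := husurj s hs
          rw [Finset.sum_eq_single l]
          · simp only [if_true, coe_evalRingHom]
            rw [hp2 l]
            simp
          · intro l' _ hl'
            rw [if_neg (fun h => hl' (huinj h))]
          · simp
        · have h1 : F.coeff s = 0 := by
            by_contra h
            exact hs (hdeg_le F hFδ s (MvPolynomial.mem_support_iff.2 h))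
          rw [h1, map_zero]
          refine Finset.sum_eq_zero fun l _ => ?_
          rw [if_neg]
          rintro rfl
          exact hs (hudeg l)
  have hfin2 : {q : ℚ | (q : ℝ) ∈ Set.Icc a b ∧ (q.den : ℝ) ≤ T ∧
      ∃ c : Fin m → ℤ, (∀ l, |(c l : ℝ)| ≤ T ^ A) ∧
      ∑ l, (c l : ℂ) * v l q = 0 ∧ ¬ TH818.AR.Functional v a b q c}.Finite :=
    hfinT.subset fun q hq => ⟨hq.1, hq.2.1⟩
  exact_mod_cast Set.ncard_le_ncard hsub hfin2

end Pool.Agent.Results.MP_290158_ag.RelationsAtRationalPoints
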